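import Pool.Agent.H14R2.LL.Defs
import Pool.Agent.H972R2.EX.REP

set_option autoImplicit false

namespace LL14
open RC14 RC852 TE852 Finset Equiv

namespace GFTPx

/-- number of blocks moving the points of `D` into small sets -/
theorem count {n r J : ℕ} {K : Type*} [Fintype K] (g : K → Perm (Fin n)) (h : ℝ) (hh : 0 ≤ h)
    (hg : PMix r h g) (y : Tup r n) (H : Fin r → Finset (Fin n)) (hH : ∀ l, (H l).card ≤ J)
    (D : Finset (Fin r)) [DecidablePred fun k : K => ∀ l ∈ D, mv (g k) y l ∈ H l] :
    ((univ.filter (fun k : K => ∀ l ∈ D, mv (g k) y l ∈ H l)).card : ℝ) ≤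
      2 * (J * h) ^ D.card * Fintype.card K := by
  classical
  set d := D.card with hd
  have hdr : d ≤ r := by
    have h1 := Finset.card_le_univ D
    rwa [Fintype.card_fin] at h1
  let em : Fin d ↪ Fin r := (D.orderEmbOfFin rfl).toEmbedding
  have hem : ∀ i, em i ∈ D := fun i => Finset.orderEmbOfFin_mem D rfl i
  let yD : Tup d n := em.trans y
  let Zs : Finset (Tup d n) := univ.filter (fun z => ∀ i, z i ∈ H (em i))
  have hZs : Zs.card ≤ J ^ d := by
    calc Zs.card ≤ (Fintype.piFinset (fun i : Fin d => H (em i))).card := by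
          apply Finset.card_le_card_of_injOn (fun z : Tup d n => (z : Fin d → Fin n))
          · intro z hz
            have h1 := (Finset.mem_filter.1 hz).2
            rw [Finset.mem_coe, Fintype.mem_piFinset]
            exact h1
          · intro z _ w _ h1
            exact DFunLike.coe_injective h1
      _ = ∏ i, (H (em i)).card := Fintype.card_piFinset _
      _ ≤ ∏ _i : Fin d, J := Finset.prod_le_prod' fun i _ => hH _
      _ = J ^ d := by simp
  have hsub : (univ.filter (fun k : K => ∀ l ∈ D, mv (g k) y l ∈ H l)) ⊆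
      Zs.biUnion (fun z => univ.filter (fun k => mv (g k) yD = z)) := by
    intro k hk
    rw [Finset.mem_biUnion]
    refine ⟨mv (g k) yD, ?_, ?_⟩
    · simp only [Zs, Finset.mem_filter, Finset.mem_univ, true_and]
      intro i
      exact (Finset.mem_filter.1 hk).2 (em i) (hem i)
    · simp
  calc ((univ.filter (fun k : K => ∀ l ∈ D, mv (g k) y l ∈ H l)).card : ℝ)
      ≤ ((Zs.biUnion (fun z => univ.filter (fun k => mv (g k) yD = z))).card : ℝ) := by
        exact_mod_cast Finset.card_le_card hsub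
    _ ≤ ∑ z ∈ Zs, ((univ.filter (fun k => mv (g k) yD = z)).card : ℝ) := by
        exact_mod_cast Finset.card_biUnion_le
    _ ≤ ∑ _z ∈ Zs, 2 * h ^ d * Fintype.card K := Finset.sum_le_sum fun z _ => hg d hdr yD z
    _ = (Zs.card : ℝ) * (2 * h ^ d * Fintype.card K) := by
        rw [Finset.sum_const, nsmul_eq_mul]
    _ ≤ ((J : ℝ) ^ d) * (2 * h ^ d * Fintype.card K) := by
        apply mul_le_mul_of_nonneg_right _ (by positivity)
        exact_mod_cast hZs
    _ = 2 * (J * h) ^ d * Fintype.card K := by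
        rw [mul_pow]
        ring

/-- one block, with the sets of the dangerous points -/
theorem hit_sum {n r J : ℕ} {K : Type*} [Fintype K] (g : K → Perm (Fin n)) (h : ℝ) (hh : 0 ≤ h)
    (hg : PMix r h g) (y : Tup r n) (Z : ℝ) (hZ : 1 ≤ Z) (H : Fin r → Finset (Fin n))
    (hH : ∀ l, (H l).card ≤ J) :
    ∑ k : K, Z ^ (∑ l, if mv (g k) y l ∈ H l then 1 else 0) ≤
      2 * (Fintype.card K : ℝ) * (1 + Z * (J * h)) ^ r := by
  classical
  have hZ0 : 0 ≤ Z - 1 := by linarith
  have h1 : ∀ k : K, Z ^ (∑ l, if mv (g k) y l ∈ H l then 1 else 0) =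
      ∑ D ∈ (univ : Finset (Fin r)).powerset,
        (Z - 1) ^ D.card * (if ∀ l ∈ D, mv (g k) y l ∈ H l then 1 else 0) := by
    intro k
    have h2 : Z ^ (∑ l, if mv (g k) y l ∈ H l then 1 else 0) =
        ∏ l, (1 + (if mv (g k) y l ∈ H l then (Z - 1) else 0)) := by
      rw [← Finset.prod_pow_eq_pow_sum]
      refine Finset.prod_congr rfl fun l _ => ?_
      split_ifs
      · rw [pow_one]; ring
      · rw [pow_zero, add_zero]
    rw [h2, Finset.prod_one_add]
    refine Finset.sum_congr rfl fun D _ => ?_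
    split_ifs with h3
    · rw [mul_one, Finset.prod_congr rfl fun l hl => if_pos (h3 l hl), Finset.prod_const]
    · push Not at h3
      obtain ⟨l, hl, hl2⟩ := h3
      rw [mul_zero]
      exact Finset.prod_eq_zero hl (if_neg hl2)
  rw [Finset.sum_congr rfl fun k _ => h1 k, Finset.sum_comm]
  have h4 : ∀ D ∈ (univ : Finset (Fin r)).powerset,
      ∑ k : K, (Z - 1) ^ D.card * (if ∀ l ∈ D, mv (g k) y l ∈ H l then (1 : ℝ) else 0) ≤
      2 * (Fintype.card K : ℝ) * ((Z - 1) * (J * h)) ^ D.card := by
    intro D _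
    rw [← Finset.mul_sum, ← Finset.sum_filter, Finset.sum_const, nsmul_eq_mul, mul_one]
    refine (mul_le_mul_of_nonneg_left (count g h hh hg y H hH D) (pow_nonneg hZ0 _)).trans
      (le_of_eq ?_)
    rw [mul_pow (Z - 1)]
    ring
  refine (Finset.sum_le_sum h4).trans ?_
  rw [← Finset.mul_sum]
  have h5 : ∑ D ∈ (univ : Finset (Fin r)).powerset, ((Z - 1) * (J * h)) ^ D.card =
      (1 + (Z - 1) * (J * h)) ^ r := by
    have h6 := Finset.prod_one_add (univ : Finset (Fin r)) (f := fun _ => (Z - 1) * (J * h))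
    rw [Finset.prod_const, Finset.card_univ, Fintype.card_fin] at h6
    rw [h6]
    refine Finset.sum_congr rfl fun D _ => ?_
    rw [Finset.prod_const]
  rw [h5]
  apply mul_le_mul_of_nonneg_left _ (by positivity)
  have hJh : 0 ≤ (J : ℝ) * h := by positivity
  apply pow_le_pow_left₀
  · have := mul_nonneg hZ0 hJh
    linarith
  · nlinarith

/-- one block -/
theorem block_sum (n q J r : ℕ) {K : Type*}
    [Fintype K] (g : K → Perm (Fin n)) (h : ℝ) (hh : 0 ≤ h) (hg : PMix r h g)
    (b : Fin q → Perm (Fin n))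
    (y : Tup r n) (Z : ℝ) (hZ : 1 ≤ Z) (E : Fin r → Finset (Fin q × Fin n))
    (hE : ∀ l, (E l).card ≤ J) :
    ∑ c : K × (Fin q × Bool), Z ^ (∑ l, if eid g b c (y l) ∈ E l then 1 else 0) ≤
      (Fintype.card (K × (Fin q × Bool)) : ℝ) * (2 * (1 + Z * (J * h)) ^ r) := by
  classical
  rw [Fintype.sum_prod_type_right]
  have hstep : ∀ e : Fin q × Bool,
      ∑ k : K, Z ^ (∑ l, if eid g b (k, e) (y l) ∈ E l then 1 else 0) ≤
        2 * (Fintype.card K : ℝ) * (1 + Z * (J * h)) ^ r := by
    rintro ⟨i, s⟩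
    set H : Fin r → Finset (Fin n) := fun l =>
      univ.filter (fun z => (i, if s then z else (b i)⁻¹ z) ∈ E l) with hHdef
    have hH : ∀ l, (H l).card ≤ J := by
      intro l
      refine le_trans ?_ (hE l)
      apply Finset.card_le_card_of_injOn (fun z => (i, if s then z else (b i)⁻¹ z))
      · intro z hz
        rw [Finset.mem_coe, hHdef, Finset.mem_filter] at hz
        exact hz.2
      · intro z _ w _ h
        cases s with
        | true => simpa using h
        | false => simpa using h
    have hφ : ∀ k : K, (∑ l, if eid g b (k, (i, s)) (y l) ∈ E l then 1 else 0) =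
        ∑ l, if (mv (g k) y) l ∈ H l then 1 else 0 := by
      intro k
      apply Finset.sum_congr rfl
      intro l _
      have : (eid g b (k, (i, s)) (y l) ∈ E l) ↔ ((mv (g k) y) l ∈ H l) := by
        rw [hHdef, Finset.mem_filter]
        simp only [Finset.mem_univ, true_and]
        rfl
      simp only [this]
    simp only [hφ]
    exact hit_sum g h hh hg y Z hZ H hH
  calc _ ≤ ∑ e : Fin q × Bool, 2 * (Fintype.card K : ℝ) * (1 + Z * (J * h)) ^ r :=
        Finset.sum_le_sum (fun e _ => hstep e)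
    _ = _ := by
        rw [Finset.sum_const, Finset.card_univ, nsmul_eq_mul, Fintype.card_prod K]
        push_cast
        ring

theorem main (n q J r : ℕ) {K : Type*}
    [Fintype K] (g : K → Perm (Fin n)) (h : ℝ) (hh : 0 ≤ h) (hg : PMix r h g)
    (b : Fin q → Perm (Fin n))
    (y : Tup r n) (Z : ℝ) (hZ : 1 ≤ Z) (j : ℕ) (hj : j ≤ J) :
    ∑ w : Fin j → K × (Fin q × Bool),
        Z ^ (∑ l, REPaux.rep g b (List.ofFn w) (y l)) ≤
      ((Fintype.card (K × (Fin q × Bool)) : ℝ) * (2 * (1 + Z * (J * h)) ^ r)) ^ j := by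
  classical
  have hZ0 : 0 ≤ Z := by linarith
  induction j with
  | zero =>
    simp [REPaux.rep, dst, edg]
  | succ j ih =>
    have ih' := ih (by omega)
    rw [← Equiv.sum_comp (Fin.consEquiv (fun _ : Fin (j + 1) => K × (Fin q × Bool))),
      Fintype.sum_prod_type_right]
    have hstep : ∀ u : Fin j → K × (Fin q × Bool),
        ∑ c : K × (Fin q × Bool),
          Z ^ (∑ l, REPaux.rep g b (List.ofFn ((Fin.consEquiv
            (fun _ : Fin (j + 1) => K × (Fin q × Bool))) (c, u))) (y l)) ≤
          Z ^ (∑ l, REPaux.rep g b (List.ofFn u) (y l)) *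
            ((Fintype.card (K × (Fin q × Bool)) : ℝ) * (2 * (1 + Z * (J * h)) ^ r)) := by
      intro u
      set y' : Tup r n := mv ((List.ofFn u).map (blk g b)).prod y with hy'
      have hy'l : ∀ l, posn g b (List.ofFn u) (y l) = y' l := fun l => rfl
      have h1 : ∀ c : K × (Fin q × Bool),
          Z ^ (∑ l, REPaux.rep g b (List.ofFn ((Fin.consEquiv
            (fun _ : Fin (j + 1) => K × (Fin q × Bool))) (c, u))) (y l)) =
          Z ^ (∑ l, REPaux.rep g b (List.ofFn u) (y l)) *
            Z ^ (∑ l, if eid g b c (y' l) ∈ (edg g b (List.ofFn u) (y l)).toFinset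
              then 1 else 0) := by
        intro c
        have h2 : List.ofFn ((Fin.consEquiv (fun _ : Fin (j + 1) => K × (Fin q × Bool)))
            (c, u)) = c :: List.ofFn u := by
          rw [List.ofFn_succ]
          simp [Fin.consEquiv]
        rw [h2, ← pow_add, ← Finset.sum_add_distrib]
        congr 1
        apply Finset.sum_congr rfl
        intro l _
        rw [REPaux.rep_cons, hy'l]
      simp only [h1]
      rw [← Finset.mul_sum]
      apply mul_le_mul_of_nonneg_left _ (pow_nonneg hZ0 _)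
      apply block_sum n q J r g h hh hg b y' Z hZ
      intro l
      calc (edg g b (List.ofFn u) (y l)).toFinset.card
          ≤ (edg g b (List.ofFn u) (y l)).length := List.toFinset_card_le _
        _ = j := by rw [REPaux.edg_length, List.length_ofFn]
        _ ≤ J := by omega
    calc _ ≤ ∑ u : Fin j → K × (Fin q × Bool), Z ^ (∑ l, REPaux.rep g b (List.ofFn u) (y l)) *
            ((Fintype.card (K × (Fin q × Bool)) : ℝ) * (2 * (1 + Z * (J * h)) ^ r)) :=
          Finset.sum_le_sum (fun u _ => hstep u)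
      _ = (∑ u : Fin j → K × (Fin q × Bool), Z ^ (∑ l, REPaux.rep g b (List.ofFn u) (y l))) *
            ((Fintype.card (K × (Fin q × Bool)) : ℝ) * (2 * (1 + Z * (J * h)) ^ r)) := by
          rw [Finset.sum_mul]
      _ ≤ _ := by
          rw [pow_succ]
          exact mul_le_mul_of_nonneg_right ih' (by positivity)

end GFTPx

/-- generating function of the numbers of repeated edges of an `r`-tuple -/
theorem GFTP (n q J r : ℕ) (hq : 1 ≤ q) (hJ : 1 ≤ J) (hn : 1 ≤ n) (h : ℝ) (hh : 0 ≤ h)
    {K : Type*} [Fintype K] [Nonempty K] (g : K → Perm (Fin n)) (hg : PMix r h g)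
    (b : Fin q → Perm (Fin n)) (y : Tup r n) (Z : ℝ) (hZ : 1 ≤ Z) :
    ∑ w : Fin J → K × (Fin q × Bool),
        Z ^ (∑ l, ((List.ofFn w).length - dst g b (List.ofFn w) (y l))) ≤
      ((Fintype.card (K × (Fin q × Bool)) : ℝ) * (2 * (1 + Z * (J * h)) ^ r)) ^ J :=
  GFTPx.main n q J r g h hh hg b y Z hZ J le_rfl

end LL14
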